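import Pool.Agent.Helper62.VF.Defs

set_option autoImplicit false

namespace Pool.Agent.Helper62.VF

open MvPolynomial

theorem ev_map {R S : Type} [CommRing R] [CommRing S] [Algebra ℂ R] [Algebra ℂ S] (φ : R →ₐ[ℂ] S)
    (F : BiForm) (x y : Fin 3 → R) :
    φ (ev F x y) = ev F (fun i => φ (x i)) (fun i => φ (y i)) := by
  unfold ev
  simp only [map_sum, map_mul, AlgHom.commutes]

theorem ev_smul {R : Type} [CommRing R] [Algebra ℂ R] (F : BiForm) (a b : R) (x y : Fin 3 → R) :
    ev F (fun i => a * x i) (fun i => b * y i) = a ^ 2 * b ^ 2 * ev F x y := by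
  unfold ev
  simp only [Finset.mul_sum]
  refine Finset.sum_congr rfl fun i _ => Finset.sum_congr rfl fun j _ =>
    Finset.sum_congr rfl fun k _ => Finset.sum_congr rfl fun l _ => ?_
  ring

/-- a vector as a matrix literal -/
theorem vec3 {R : Type} (f : Fin 3 → R) : f = ![f 0, f 1, f 2] := by
  ext i; fin_cases i <;> rfl

/-- the algebraic elements form a field: a generating set decides -/
theorem isAlgebraic_of_gen {E : Type} [Field E] [Algebra ℂ E] (a : Fin 4 → E) (w : E)
    (hw : w ^ 2 ∈ Algebra.adjoin ℂ (Set.range a))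
    (htop : IntermediateField.adjoin ℂ (Set.range a ∪ {w}) = ⊤) :
    Algebra.IsAlgebraic (Algebra.adjoin ℂ (Set.range a)) E := by
  constructor
  intro z
  have hz : z ∈ IntermediateField.adjoin ℂ (Set.range a ∪ {w}) := by rw [htop]; trivial
  induction hz using IntermediateField.adjoin_induction with
  | mem x hx =>
    rcases hx with hx | hx
    · have : x ∈ Algebra.adjoin ℂ (Set.range a) := Algebra.subset_adjoin hx
      exact isAlgebraic_algebraMap (⟨x, this⟩ : Algebra.adjoin ℂ (Set.range a))
    · rw [Set.mem_singleton_iff.mp hx]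
      refine ⟨Polynomial.X ^ 2 - Polynomial.C ⟨w ^ 2, hw⟩, ?_, ?_⟩
      · exact Polynomial.X_pow_sub_C_ne_zero (by norm_num) _
      · simp
  | algebraMap x =>
    exact isAlgebraic_algebraMap (⟨algebraMap ℂ E x, Subalgebra.algebraMap_mem _ x⟩ :
      Algebra.adjoin ℂ (Set.range a))
  | add x y _ _ hx hy => exact hx.add hy
  | inv x _ hx => exact hx.inv
  | mul x y _ _ hx hy => exact hx.mul hy

/-- four generators and a square root, in a field of transcendence degree 4 -/
theorem indep_of_gen {E : Type} [Field E] [Algebra ℂ E] (b : Fin 4 → E)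
    (hb : IsTranscendenceBasis ℂ b) (a : Fin 4 → E) (w : E)
    (hw : w ^ 2 ∈ Algebra.adjoin ℂ (Set.range a))
    (htop : IntermediateField.adjoin ℂ (Set.range a ∪ {w}) = ⊤) :
    AlgebraicIndependent ℂ a := by
  have h := isAlgebraic_of_gen a w hw htop
  have hle : Cardinal.mk (Fin 4) ≤ Algebra.trdeg ℂ E := by
    rw [← hb.cardinalMk_eq_trdeg]
  exact (Algebra.IsAlgebraic.isTranscendenceBasis_of_le_trdeg_of_finite ℂ a hle).1

theorem basis_of_gen {E : Type} [Field E] [Algebra ℂ E] (a : Fin 4 → E) (w : E)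
    (ha : AlgebraicIndependent ℂ a)
    (hw : w ^ 2 ∈ Algebra.adjoin ℂ (Set.range a))
    (htop : IntermediateField.adjoin ℂ (Set.range a ∪ {w}) = ⊤) :
    IsTranscendenceBasis ℂ a := by
  have h := isAlgebraic_of_gen a w hw htop
  exact ha.isTranscendenceBasis_iff_isAlgebraic.mpr h

end Pool.Agent.Helper62.VF
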