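import Pool.Agent.Helper62.VF.Main

set_option autoImplicit false

namespace Pool.Agent.Helper62.VF

open MvPolynomial

section core

variable {E : Type} [Field E] [Algebra ℂ E]

/-- the point of the cubic -/
def vec (g : Matrix (Fin 2) (Fin 2) ℂ) (w : E) (ξ η : Fin 3 → E) : Fin 6 → E :=
  ![w - bil g (ξ 1) (ξ 2) (η 1) (η 2), ξ 0 * η 0, ξ 1 * η 0, ξ 2 * η 0, ξ 0 * η 1, ξ 0 * η 2]

theorem cubic_zero {F : BiForm} {G : MvPolynomial (Fin 6) ℂ}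
    {A B : Matrix (Fin 3) (Fin 3) ℂ} {g : Matrix (Fin 2) (Fin 2) ℂ} (hA : IsUnit A.det)
    (hB : IsUnit B.det)
    (h : X 1 * G = (X 1 * X 0 + (C (g 0 0) * X 2 * X 4 + C (g 0 1) * X 2 * X 5 + C (g 1 0) * X 3 * X 4
        + C (g 1 1) * X 3 * X 5)) ^ 2
      - ev F (fun i => C (A i 0) * X 1 + C (A i 1) * X 2 + C (A i 2) * X 3)
          (fun i => C (B i 0) * X 1 + C (B i 1) * X 4 + C (B i 2) * X 5))
    (x y : Fin 3 → E) (w : E) (hw : w ^ 2 = ev F x y) (h0 : mv A⁻¹ x 0 ≠ 0) (h1 : mv B⁻¹ y 0 ≠ 0) :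
    MvPolynomial.aeval (vec g w (mv A⁻¹ x) (mv B⁻¹ y)) G = 0 := by
  have h2 := cubic_eval h (vec g w (mv A⁻¹ x) (mv B⁻¹ y))
  obtain ⟨ξ, hξ⟩ : ∃ ξ, ξ = mv A⁻¹ x := ⟨_, rfl⟩
  obtain ⟨η, hη⟩ : ∃ η, η = mv B⁻¹ y := ⟨_, rfl⟩
  have hx : mv A ξ = x := by rw [hξ, mv_inv A hA]
  have hy : mv B η = y := by rw [hη, mv_inv B hB]
  rw [← hξ] at h0
  rw [← hη] at h1
  rw [← hξ, ← hη] at h2 ⊢
  have e1 : (![vec g w ξ η 1, vec g w ξ η 2, vec g w ξ η 3] : Fin 3 → E) = fun j => η 0 * ξ j := by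
    ext j
    fin_cases j <;> first | (simp [vec]; done) | (simp [vec]; ring)
  have e2 : (![vec g w ξ η 1, vec g w ξ η 4, vec g w ξ η 5] : Fin 3 → E) = fun j => ξ 0 * η j := by
    ext j
    fin_cases j <;> simp [vec]
  rw [e1, e2, mv_smul, mv_smul, hx, hy, ev_smul, ← hw] at h2
  have e3 : (vec g w ξ η 1 * vec g w ξ η 0 + bil g (vec g w ξ η 2) (vec g w ξ η 3) (vec g w ξ η 4)
      (vec g w ξ η 5)) ^ 2 - η 0 ^ 2 * ξ 0 ^ 2 * w ^ 2 = 0 := by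
    simp only [vec, bil, Matrix.cons_val]
    ring
  rw [e3] at h2
  rcases mul_eq_zero.mp h2 with h3 | h3
  · exfalso
    have : ξ 0 * η 0 = 0 := h3
    rcases mul_eq_zero.mp this with h4 | h4
    · exact h0 h4
    · exact h1 h4
  · exact h3

theorem mv_mem {n : ℕ} (K : IntermediateField ℂ E) (M : Matrix (Fin n) (Fin n) ℂ) (v : Fin n → E)
    (hv : ∀ j, v j ∈ K) (i : Fin n) : mv M v i ∈ K := by
  unfold mv
  exact sum_mem fun j _ => mul_mem (K.algebraMap_mem _) (hv j)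

theorem bil_mem (K : IntermediateField ℂ E) (g : Matrix (Fin 2) (Fin 2) ℂ) {p q r s : E}
    (hp : p ∈ K) (hq : q ∈ K) (hr : r ∈ K) (hs : s ∈ K) : bil g p q r s ∈ K := by
  unfold bil
  exact add_mem (add_mem (add_mem (mul_mem (mul_mem (K.algebraMap_mem _) hp) hr)
    (mul_mem (mul_mem (K.algebraMap_mem _) hp) hs)) (mul_mem (mul_mem (K.algebraMap_mem _) hq) hr))
    (mul_mem (mul_mem (K.algebraMap_mem _) hq) hs)

/-- numerical version of the linear independence -/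
theorem coef_zero {A B : Matrix (Fin 3) (Fin 3) ℂ} (hA : IsUnit A.det) (hB : IsUnit B.det)
    (c1 c2 c3 c4 c5 : ℂ)
    (h : ∀ p0 p1 p2 p3 : ℂ,
      c1 * (mv A⁻¹ ![1, p0, p1] 0 * mv B⁻¹ ![1, p2, p3] 0)
      + c2 * (mv A⁻¹ ![1, p0, p1] 1 * mv B⁻¹ ![1, p2, p3] 0)
      + c3 * (mv A⁻¹ ![1, p0, p1] 2 * mv B⁻¹ ![1, p2, p3] 0)
      + c4 * (mv A⁻¹ ![1, p0, p1] 0 * mv B⁻¹ ![1, p2, p3] 1)
      + c5 * (mv A⁻¹ ![1, p0, p1] 0 * mv B⁻¹ ![1, p2, p3] 2) = 0) :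
    c1 = 0 ∧ c2 = 0 ∧ c3 = 0 ∧ c4 = 0 ∧ c5 = 0 := by
  have hb : ∀ p2 p3 : ℂ, (![c1 * mv B⁻¹ ![1, p2, p3] 0 + c4 * mv B⁻¹ ![1, p2, p3] 1
      + c5 * mv B⁻¹ ![1, p2, p3] 2, c2 * mv B⁻¹ ![1, p2, p3] 0, c3 * mv B⁻¹ ![1, p2, p3] 0] :
      Fin 3 → ℂ) = 0 := by
    intro p2 p3
    apply vec_zero A hA
    intro p q
    have h1 := h p q p2 p3
    rw [Fin.sum_univ_three]
    simp only [Matrix.cons_val]
    rw [← h1]
    ring
  have g1 : (![c1, c4, c5] : Fin 3 → ℂ) = 0 := by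
    apply vec_zero B hB
    intro p q
    have h1 := congrFun (hb p q) 0
    rw [Fin.sum_univ_three]
    simp only [Matrix.cons_val, Pi.zero_apply] at h1 ⊢
    exact h1
  have g2 : (![c2, 0, 0] : Fin 3 → ℂ) = 0 := by
    apply vec_zero B hB
    intro p q
    have h1 := congrFun (hb p q) 1
    rw [Fin.sum_univ_three]
    simp only [Matrix.cons_val, Pi.zero_apply] at h1 ⊢
    rw [h1]; ring
  have g3 : (![c3, 0, 0] : Fin 3 → ℂ) = 0 := by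
    apply vec_zero B hB
    intro p q
    have h1 := congrFun (hb p q) 2
    rw [Fin.sum_univ_three]
    simp only [Matrix.cons_val, Pi.zero_apply] at h1 ⊢
    rw [h1]; ring
  have a1 := congrFun g1 0
  have a2 := congrFun g1 1
  have a3 := congrFun g1 2
  have a4 := congrFun g2 0
  have a5 := congrFun g3 0
  simp only [Matrix.cons_val, Pi.zero_apply] at a1 a2 a3 a4 a5
  exact ⟨a1, a4, a5, a2, a3⟩

theorem aeval_mv (a : Fin 4 → E) (M : Matrix (Fin 3) (Fin 3) ℂ) (p q : Fin 4) (i : Fin 3) :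
    MvPolynomial.aeval a (mv M (![1, X p, X q] : Fin 3 → MvPolynomial (Fin 4) ℂ) i)
      = mv M ![1, a p, a q] i := by
  rw [mv_map]
  congr 1
  ext j
  fin_cases j <;> simp

theorem eval_mv (a : Fin 4 → ℂ) (M : Matrix (Fin 3) (Fin 3) ℂ) (p q : Fin 4) (i : Fin 3) :
    MvPolynomial.eval a (mv M (![1, X p, X q] : Fin 3 → MvPolynomial (Fin 4) ℂ) i)
      = mv M ![1, a p, a q] i := aeval_mv a M p q i

/-- the coordinates of the point of the cubic are linearly independent over `ℂ` -/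
theorem vec_indep (a : Fin 4 → E) (ha : AlgebraicIndependent ℂ a) (w : E)
    (hw : w ∉ IntermediateField.adjoin ℂ (Set.range a))
    {A B : Matrix (Fin 3) (Fin 3) ℂ} (hA : IsUnit A.det) (hB : IsUnit B.det)
    (g : Matrix (Fin 2) (Fin 2) ℂ) (c : Fin 6 → ℂ)
    (hc : ∑ i, algebraMap ℂ E (c i) * vec g w (mv A⁻¹ ![1, a 0, a 1]) (mv B⁻¹ ![1, a 2, a 3]) i = 0) :
    c = 0 := by
  obtain ⟨K, hK⟩ : ∃ K, K = IntermediateField.adjoin ℂ (Set.range a) := ⟨_, rfl⟩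
  have haK : ∀ i, a i ∈ K := fun i => by
    rw [hK]; exact IntermediateField.subset_adjoin _ _ ⟨i, rfl⟩
  have hx : ∀ j, (![1, a 0, a 1] : Fin 3 → E) j ∈ K := by
    intro j; fin_cases j
    · exact one_mem K
    · exact haK 0
    · exact haK 1
  have hy : ∀ j, (![1, a 2, a 3] : Fin 3 → E) j ∈ K := by
    intro j; fin_cases j
    · exact one_mem K
    · exact haK 2
    · exact haK 3
  obtain ⟨ξ, hξ⟩ : ∃ ξ, ξ = mv A⁻¹ (![1, a 0, a 1] : Fin 3 → E) := ⟨_, rfl⟩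
  obtain ⟨η, hη⟩ : ∃ η, η = mv B⁻¹ (![1, a 2, a 3] : Fin 3 → E) := ⟨_, rfl⟩
  have hξK : ∀ j, ξ j ∈ K := fun j => by rw [hξ]; exact mv_mem K _ _ hx j
  have hηK : ∀ j, η j ∈ K := fun j => by rw [hη]; exact mv_mem K _ _ hy j
  rw [← hξ, ← hη] at hc
  rw [Fin.sum_univ_six] at hc
  simp only [vec, Matrix.cons_val] at hc
  obtain ⟨rest, hrest⟩ : ∃ rest, rest = algebraMap ℂ E (c 1) * (ξ 0 * η 0)
    + algebraMap ℂ E (c 2) * (ξ 1 * η 0) + algebraMap ℂ E (c 3) * (ξ 2 * η 0)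
    + algebraMap ℂ E (c 4) * (ξ 0 * η 1) + algebraMap ℂ E (c 5) * (ξ 0 * η 2) := ⟨_, rfl⟩
  have hrK : rest ∈ K := by
    rw [hrest]
    have f : ∀ (z : ℂ) (i j : Fin 3), algebraMap ℂ E z * (ξ i * η j) ∈ K := fun z i j =>
      mul_mem (K.algebraMap_mem _) (mul_mem (hξK i) (hηK j))
    exact add_mem (add_mem (add_mem (add_mem (f _ _ _) (f _ _ _)) (f _ _ _)) (f _ _ _)) (f _ _ _)
  have hc' : algebraMap ℂ E (c 0) * (w - bil g (ξ 1) (ξ 2) (η 1) (η 2)) + rest = 0 := by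
    rw [hrest, ← hc]; ring
  have hc0 : c 0 = 0 := by
    by_contra hne
    apply hw
    rw [← hK]
    have hne' : algebraMap ℂ E (c 0) ≠ 0 := by
      rw [Ne, map_eq_zero]; exact hne
    have e : w = bil g (ξ 1) (ξ 2) (η 1) (η 2) - rest / algebraMap ℂ E (c 0) := by
      field_simp
      linear_combination hc'
    rw [e]
    exact sub_mem (bil_mem K g (hξK 1) (hξK 2) (hηK 1) (hηK 2)) (div_mem hrK (K.algebraMap_mem _))
  have hrest0 : rest = 0 := by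
    rw [hc0, map_zero, zero_mul, zero_add] at hc'
    exact hc'
  have hpoly : (C (c 1) * (mv A⁻¹ (![1, X 0, X 1] : Fin 3 → MvPolynomial (Fin 4) ℂ) 0
        * mv B⁻¹ (![1, X 2, X 3] : Fin 3 → MvPolynomial (Fin 4) ℂ) 0)
      + C (c 2) * (mv A⁻¹ (![1, X 0, X 1] : Fin 3 → MvPolynomial (Fin 4) ℂ) 1
        * mv B⁻¹ (![1, X 2, X 3] : Fin 3 → MvPolynomial (Fin 4) ℂ) 0)
      + C (c 3) * (mv A⁻¹ (![1, X 0, X 1] : Fin 3 → MvPolynomial (Fin 4) ℂ) 2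
        * mv B⁻¹ (![1, X 2, X 3] : Fin 3 → MvPolynomial (Fin 4) ℂ) 0)
      + C (c 4) * (mv A⁻¹ (![1, X 0, X 1] : Fin 3 → MvPolynomial (Fin 4) ℂ) 0
        * mv B⁻¹ (![1, X 2, X 3] : Fin 3 → MvPolynomial (Fin 4) ℂ) 1)
      + C (c 5) * (mv A⁻¹ (![1, X 0, X 1] : Fin 3 → MvPolynomial (Fin 4) ℂ) 0
        * mv B⁻¹ (![1, X 2, X 3] : Fin 3 → MvPolynomial (Fin 4) ℂ) 2) : MvPolynomial (Fin 4) ℂ) = 0 := by
    have hinj : Function.Injective (MvPolynomial.aeval a : MvPolynomial (Fin 4) ℂ →ₐ[ℂ] E) := ha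
    apply hinj
    rw [map_zero]
    simp only [map_add, map_mul, MvPolynomial.algHom_C, aeval_mv]
    rw [← hξ, ← hη, ← hrest]
    exact hrest0
  have hnum : ∀ p0 p1 p2 p3 : ℂ,
      c 1 * (mv A⁻¹ ![1, p0, p1] 0 * mv B⁻¹ ![1, p2, p3] 0)
      + c 2 * (mv A⁻¹ ![1, p0, p1] 1 * mv B⁻¹ ![1, p2, p3] 0)
      + c 3 * (mv A⁻¹ ![1, p0, p1] 2 * mv B⁻¹ ![1, p2, p3] 0)
      + c 4 * (mv A⁻¹ ![1, p0, p1] 0 * mv B⁻¹ ![1, p2, p3] 1)
      + c 5 * (mv A⁻¹ ![1, p0, p1] 0 * mv B⁻¹ ![1, p2, p3] 2) = 0 := by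
    intro p0 p1 p2 p3
    have h1 := congrArg (MvPolynomial.eval ![p0, p1, p2, p3]) hpoly
    rw [map_zero] at h1
    simp only [map_add, map_mul, MvPolynomial.eval_C, eval_mv] at h1
    exact h1
  obtain ⟨z1, z2, z3, z4, z5⟩ := coef_zero hA hB _ _ _ _ _ hnum
  ext i
  fin_cases i
  · exact hc0
  · exact z1
  · exact z2
  · exact z3
  · exact z4
  · exact z5

end core

end Pool.Agent.Helper62.VF
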