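import Mathlib

/-!
# Verra fourfolds and cubic fourfolds: definitions (MP_7cc55e_ag)

A Verra fourfold is the double cover `w² = F(x, y)` of `ℙ² × ℙ²` for a form `F` of bidegree `(2, 2)` whose zero
divisor is smooth.
-/

set_option autoImplicit false

namespace Pool.Agent.Helper62.VF

open MvPolynomial

/-- A form of bidegree `(2, 2)` in `x₀, x₁, x₂` and `y₀, y₁, y₂`, given by coefficients: the coefficients `F i j k l` stand for
`F = ∑ F i j k l xᵢ xⱼ yₖ yₗ`. -/
abbrev BiForm := Fin 3 → Fin 3 → Fin 3 → Fin 3 → ℂ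

/-- The value `F(x, y)`, for `x`, `y` in a commutative `ℂ`-algebra. -/
def ev {R : Type} [CommRing R] [Algebra ℂ R] (F : BiForm) (x y : Fin 3 → R) : R :=
  ∑ i, ∑ j, ∑ k, ∑ l, algebraMap ℂ R (F i j k l) * (x i * x j) * (y k * y l)

/-- The divisor `F = 0` in `ℙ² × ℙ²` is smooth: at every zero `(x, y)` with `x ≠ 0`, `y ≠ 0` some directional derivative of `F` is
not zero. -/
def Smooth (F : BiForm) : Prop :=
  ∀ x y : Fin 3 → ℂ, x ≠ 0 → y ≠ 0 → ev F x y = 0 →
    ∃ ξ η : Fin 3 → ℂ, deriv (fun t : ℂ => ev F (x + t • ξ) (y + t • η)) 0 ≠ 0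

/-- The polynomial `F(1, a₀, a₁; 1, a₂, a₃)` in four variables. -/
noncomputable def aff (F : BiForm) : MvPolynomial (Fin 4) ℂ := ev F ![1, X 0, X 1] ![1, X 2, X 3]

/-- The coordinate ring `ℂ[a₀, a₁, a₂, a₃, w] / (w² - F(1, a₀, a₁; 1, a₂, a₃))` of the affine chart `x₀ ≠ 0`, `y₀ ≠ 0` of the double
cover `w² = F(x, y)`. -/
abbrev CoordRing (F : BiForm) : Type := AdjoinRoot (Polynomial.X ^ 2 - Polynomial.C (aff F))

/-- The function field of the double cover `w² = F(x, y)`. -/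
abbrev FunField (F : BiForm) : Type := FractionRing (CoordRing F)

/-- The double covers `w² = F(x, y)` and `w² = F'(x, y)` are birational: their function fields are isomorphic over `ℂ`. -/
def Birational (F F' : BiForm) : Prop := Nonempty (FunField F ≃ₐ[ℂ] FunField F')

/-- `G` is the cubic form in `U, Z, X₁, X₂, Y₁, Y₂` (variables `0, ..., 5`) attached to a quadric surface on the double cover
`w² = F(x, y)`: in the coordinates given by the invertible matrices `A`, `B` the restriction of `F` to the product of the two lines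
`x₀ = 0` and `y₀ = 0` is the square of the bilinear form `g`, and
`Z G = (Z U + g(X, Y))² - F(A (Z, X₁, X₂), B (Z, Y₁, Y₂))`. -/
def HasCubic (F : BiForm) (G : MvPolynomial (Fin 6) ℂ) : Prop :=
  ∃ (A B : Matrix (Fin 3) (Fin 3) ℂ) (g : Matrix (Fin 2) (Fin 2) ℂ), IsUnit A.det ∧ IsUnit B.det ∧
    X 1 * G = (X 1 * X 0 + (C (g 0 0) * X 2 * X 4 + C (g 0 1) * X 2 * X 5 + C (g 1 0) * X 3 * X 4
        + C (g 1 1) * X 3 * X 5)) ^ 2
      - ev F (fun i => C (A i 0) * X 1 + C (A i 1) * X 2 + C (A i 2) * X 3)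
          (fun i => C (B i 0) * X 1 + C (B i 1) * X 4 + C (B i 2) * X 5)

/-- The cubic hypersurfaces `G = 0` and `G' = 0` in `ℙ⁵` are projectively equivalent. -/
def ProjEquiv (G G' : MvPolynomial (Fin 6) ℂ) : Prop :=
  ∃ M : Matrix (Fin 6) (Fin 6) ℂ, IsUnit M.det ∧ G' = bind₁ (fun i => ∑ j, C (M i j) * X j) G

end Pool.Agent.Helper62.VF
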