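import Pool.Agent.Helper62.VF.Basic

set_option autoImplicit false

namespace Pool.Agent.Helper62.VF

open MvPolynomial

theorem aff_aeval {E : Type} [Field E] [Algebra ℂ E] (F : BiForm) (a : Fin 4 → E) :
    MvPolynomial.aeval a (aff F) = ev F ![1, a 0, a 1] ![1, a 2, a 3] := by
  unfold aff
  rw [ev_map]
  congr 1 <;> · ext i; fin_cases i <;> simp

section realize

variable {E : Type} [Field E] [Algebra ℂ E] (F : BiForm) (a : Fin 4 → E) (w : E)

theorem lift_ok (hw : w ^ 2 = ev F ![1, a 0, a 1] ![1, a 2, a 3]) :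
    Polynomial.eval₂ ((MvPolynomial.aeval a : MvPolynomial (Fin 4) ℂ →ₐ[ℂ] E) :
      MvPolynomial (Fin 4) ℂ →+* E) w (Polynomial.X ^ 2 - Polynomial.C (aff F)) = 0 := by
  rw [Polynomial.eval₂_sub, Polynomial.eval₂_X_pow, Polynomial.eval₂_C, hw]
  simp only [RingHom.coe_coe]
  rw [aff_aeval, sub_self]

/-- the homomorphism of the coordinate ring -/
noncomputable def toE (hw : w ^ 2 = ev F ![1, a 0, a 1] ![1, a 2, a 3]) : CoordRing F →ₐ[ℂ] E :=
  AdjoinRoot.liftAlgHom _ (MvPolynomial.aeval a) w (lift_ok F a w hw)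

theorem toE_mk (hw : w ^ 2 = ev F ![1, a 0, a 1] ![1, a 2, a 3])
    (p : Polynomial (MvPolynomial (Fin 4) ℂ)) :
    toE F a w hw (AdjoinRoot.mk _ p) = Polynomial.eval₂ ((MvPolynomial.aeval a :
      MvPolynomial (Fin 4) ℂ →ₐ[ℂ] E) : MvPolynomial (Fin 4) ℂ →+* E) w p := by
  unfold toE
  rfl

theorem toE_root (hw : w ^ 2 = ev F ![1, a 0, a 1] ![1, a 2, a 3]) :
    toE F a w hw (AdjoinRoot.root _) = w := by
  unfold toE
  exact AdjoinRoot.liftAlgHom_root _ (MvPolynomial.aeval a) w (lift_ok F a w hw)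

theorem toE_of (hw : w ^ 2 = ev F ![1, a 0, a 1] ![1, a 2, a 3]) (p : MvPolynomial (Fin 4) ℂ) :
    toE F a w hw (AdjoinRoot.of _ p) = MvPolynomial.aeval a p := by
  unfold toE
  exact AdjoinRoot.liftAlgHom_of _ (MvPolynomial.aeval a) w (lift_ok F a w hw) p

theorem toE_inj (hns : ¬ IsSquare (aff F)) (ha : AlgebraicIndependent ℂ a)
    (hw : w ^ 2 = ev F ![1, a 0, a 1] ![1, a 2, a 3]) : Function.Injective (toE F a w hw) := by
  rw [injective_iff_map_eq_zero]
  intro z
  induction z using AdjoinRoot.induction_on with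
  | ih p =>
    intro hz
    rw [toE_mk] at hz
    obtain ⟨g, hg⟩ : ∃ g : Polynomial (MvPolynomial (Fin 4) ℂ),
      g = Polynomial.X ^ 2 - Polynomial.C (aff F) := ⟨_, rfl⟩
    have hmon : g.Monic := by rw [hg]; exact Polynomial.monic_X_pow_sub_C _ (by norm_num)
    have hdeg : g.natDegree = 2 := by
      rw [hg]; exact Polynomial.natDegree_X_pow_sub_C
    have hdiv := Polynomial.modByMonic_add_div p g
    have hlt : (p %ₘ g).natDegree < 2 := by
      rw [← hdeg]
      apply Polynomial.natDegree_modByMonic_lt _ hmon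
      intro h1
      rw [h1] at hdeg
      simp at hdeg
    obtain ⟨r, hr⟩ : ∃ r, r = p %ₘ g := ⟨_, rfl⟩
    rw [← hr] at hdiv hlt
    have hform := Polynomial.eq_X_add_C_of_natDegree_le_one (show r.natDegree ≤ 1 by omega)
    obtain ⟨β, hβ⟩ : ∃ β, β = r.coeff 1 := ⟨_, rfl⟩
    obtain ⟨α, hα⟩ : ∃ α, α = r.coeff 0 := ⟨_, rfl⟩
    rw [← hβ, ← hα] at hform
    have hval : MvPolynomial.aeval a β * w + MvPolynomial.aeval a α = 0 := by
      rw [← hdiv, Polynomial.eval₂_add, Polynomial.eval₂_mul] at hz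
      rw [hg, lift_ok F a w hw, zero_mul, add_zero, hform] at hz
      rw [Polynomial.eval₂_add, Polynomial.eval₂_mul, Polynomial.eval₂_C, Polynomial.eval₂_C,
        Polynomial.eval₂_X] at hz
      exact hz
    have hinj : Function.Injective (MvPolynomial.aeval a : MvPolynomial (Fin 4) ℂ →ₐ[ℂ] E) := ha
    by_cases hβ0 : β = 0
    · have hα0 : α = 0 := by
        rw [hβ0, map_zero, zero_mul, zero_add] at hval
        exact hinj (by rw [hval, map_zero])
      rw [AdjoinRoot.mk_eq_zero]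
      rw [hα0, hβ0] at hform
      rw [hform] at hdiv
      simp only [map_zero, zero_mul, add_zero, zero_add] at hdiv
      refine ⟨p /ₘ g, ?_⟩
      rw [← hg]
      exact hdiv.symm
    · exfalso
      apply hns
      have hsq : α ^ 2 = β ^ 2 * aff F := by
        apply hinj
        rw [map_pow, map_mul, map_pow, aff_aeval, ← hw]
        linear_combination (MvPolynomial.aeval a α - MvPolynomial.aeval a β * w) * hval
      have hdvd : β ∣ α := by
        rw [← IsIntegrallyClosed.pow_dvd_pow_iff (n := 2) (by norm_num)]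
        exact ⟨aff F, hsq⟩
      obtain ⟨γ, rfl⟩ := hdvd
      refine ⟨γ, ?_⟩
      have h1 : β ^ 2 * aff F = β ^ 2 * (γ * γ) := by rw [← hsq]; ring
      exact mul_left_cancel₀ (pow_ne_zero 2 hβ0) h1

/-- the function field is the field generated by a generic point -/
theorem realize (hns : ¬ IsSquare (aff F)) (ha : AlgebraicIndependent ℂ a)
    (hw : w ^ 2 = ev F ![1, a 0, a 1] ![1, a 2, a 3])
    (htop : IntermediateField.adjoin ℂ (Set.range a ∪ {w}) = ⊤) :
    Nonempty (FunField F ≃ₐ[ℂ] E) := by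
  let _ : Algebra (CoordRing F) E := (toE F a w hw).toRingHom.toAlgebra
  have hmap : ∀ z : CoordRing F, algebraMap (CoordRing F) E z = toE F a w hw z := fun z => rfl
  have : IsScalarTower ℂ (CoordRing F) E := IsScalarTower.of_algebraMap_eq fun x => by
    rw [hmap, AlgHom.commutes]
  have : FaithfulSMul (CoordRing F) E := by
    rw [faithfulSMul_iff_algebraMap_injective]
    exact toE_inj F a w hns ha hw
  have hsub : ∀ z ∈ Algebra.adjoin ℂ (Set.range a ∪ {w}), ∃ y : CoordRing F,
      algebraMap (CoordRing F) E y = z := by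
    intro z hz
    have h1 : Algebra.adjoin ℂ (Set.range a ∪ {w}) ≤ (toE F a w hw).range := by
      rw [Algebra.adjoin_le_iff]
      rintro x (⟨i, rfl⟩ | hx)
      · exact ⟨AdjoinRoot.of _ (X i), by
          show toE F a w hw _ = _
          rw [toE_of, aeval_X]⟩
      · rw [Set.mem_singleton_iff.mp hx]
        exact ⟨AdjoinRoot.root _, toE_root F a w hw⟩
    obtain ⟨y, hy⟩ := h1 hz
    exact ⟨y, hy⟩
  have : IsFractionRing (CoordRing F) E := by
    apply IsFractionRing.of_field
    intro z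
    have hz : z ∈ IntermediateField.adjoin ℂ (Set.range a ∪ {w}) := by rw [htop]; trivial
    obtain ⟨p, hp, q, hq, hpq⟩ := IntermediateField.mem_adjoin_iff_div.mp hz
    obtain ⟨x, hx⟩ := hsub p hp
    obtain ⟨y, hy⟩ := hsub q hq
    exact ⟨x, y, by rw [hx, hy]; exact hpq⟩
  exact ⟨(FractionRing.algEquiv (CoordRing F) E).restrictScalars ℂ⟩

end realize

end Pool.Agent.Helper62.VF
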