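import Pool.Agent.Helper62.VF.Core

set_option autoImplicit false

namespace Pool.Agent.Helper62.VF

open MvPolynomial

section final

variable {E : Type} [Field E] [Algebra ℂ E]

/-- linear forms on the transformed point -/
theorem form_ne {v v' : Fin 6 → E} {M : Matrix (Fin 6) (Fin 6) ℂ} (hM : IsUnit M.det)
    (hv : v' = mv M⁻¹ v) (hind : ∀ c : Fin 6 → ℂ, ∑ i, algebraMap ℂ E (c i) * v i = 0 → c = 0)
    (d : Fin 6 → ℂ) (hd : d ≠ 0) : ∑ i, algebraMap ℂ E (d i) * v' i ≠ 0 := by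
  intro h
  apply hd
  have h1 : ∑ j, algebraMap ℂ E (∑ i, d i * M⁻¹ i j) * v j = 0 := by
    rw [← h, hv]
    unfold mv
    simp only [map_sum, map_mul, Finset.sum_mul, Finset.mul_sum]
    rw [Finset.sum_comm]
    exact Finset.sum_congr rfl fun i _ => Finset.sum_congr rfl fun j _ => by ring
  have h2 := hind _ h1
  have h3 : Matrix.vecMul d M⁻¹ = 0 := by
    ext j
    have := congrFun h2 j
    simpa [Matrix.vecMul, dotProduct] using this
  have h4 : Matrix.vecMul (Matrix.vecMul d M⁻¹) M = d := by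
    rw [Matrix.vecMul_vecMul, Matrix.nonsing_inv_mul _ hM, Matrix.vecMul_one]
  rw [← h4, h3, Matrix.zero_vecMul]

theorem row_ne {n : ℕ} {A : Matrix (Fin n) (Fin n) ℂ} (hA : IsUnit A.det) (i : Fin n)
    (h : ∀ j, A i j = 0) : False := by
  have h1 : A.det = 0 := Matrix.det_eq_zero_of_row_eq_zero i h
  rw [h1] at hA
  exact not_isUnit_zero hA

/-- generation, first half: from the second double cover to the point of the cubic -/
theorem gen1 (K : IntermediateField ℂ E) {A : Matrix (Fin 3) (Fin 3) ℂ} (hA : IsUnit A.det)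
    (p : Fin 3 → E) (hp : p 0 ≠ 0) (hP : mv A p 0 ≠ 0) (hK : ∀ i, mv A p i / mv A p 0 ∈ K) :
    mv A p 0 / p 0 ∈ K ∧ ∀ i, p i / p 0 ∈ K := by
  have h1 : ∀ i, p i / mv A p 0 ∈ K := by
    intro i
    have h2 := mv_mem K A⁻¹ (fun j => (mv A p 0)⁻¹ * mv A p j) (fun j => by
      have := hK j
      rw [div_eq_mul_inv, mul_comm] at this
      exact this) i
    rw [mv_smul, mv_inv' A hA] at h2
    rw [div_eq_mul_inv, mul_comm]
    exact h2
  have h3 : mv A p 0 / p 0 ∈ K := by
    have := inv_mem (h1 0)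
    rwa [inv_div] at this
  refine ⟨h3, fun i => ?_⟩
  have e : p i / p 0 = (p i / mv A p 0) * (mv A p 0 / p 0) := by field_simp
  rw [e]
  exact mul_mem (h1 i) h3

/-- generation, second half: from the point of the cubic to the coordinates of the first double cover -/
theorem gen2 (K : IntermediateField ℂ E) {A : Matrix (Fin 3) (Fin 3) ℂ} (hA : IsUnit A.det)
    (x : Fin 3 → E) (hx : x 0 = 1) (h0 : mv A⁻¹ x 0 ≠ 0) (hK : ∀ i, mv A⁻¹ x i / mv A⁻¹ x 0 ∈ K) :
    (∀ i, x i ∈ K) ∧ ∀ i, mv A⁻¹ x i ∈ K := by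
  have h1 : ∀ i, x i / mv A⁻¹ x 0 ∈ K := by
    intro i
    have h2 := mv_mem K A (fun j => (mv A⁻¹ x 0)⁻¹ * mv A⁻¹ x j) (fun j => by
      have := hK j
      rw [div_eq_mul_inv, mul_comm] at this
      exact this) i
    rw [mv_smul, mv_inv A hA] at h2
    rw [div_eq_mul_inv, mul_comm]
    exact h2
  have h3 : mv A⁻¹ x 0 ∈ K := by
    have := inv_mem (h1 0)
    rwa [inv_div, hx, div_one] at this
  have h4 : ∀ i, x i ∈ K := fun i => by
    have e : x i = (x i / mv A⁻¹ x 0) * mv A⁻¹ x 0 := by field_simp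
    rw [e]
    exact mul_mem (h1 i) h3
  exact ⟨h4, mv_mem K _ _ h4⟩

end final

end Pool.Agent.Helper62.VF
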