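import Pool.Agent.Helper62.VF.Field

set_option autoImplicit false

namespace Pool.Agent.Helper62.VF

open MvPolynomial Filter Topology

theorem eval_aff (F : BiForm) (p : Fin 4 → ℂ) :
    MvPolynomial.eval p (aff F) = ev F ![1, p 0, p 1] ![1, p 2, p 3] := by
  have h := aff_aeval F p
  rw [← h]
  rfl

theorem ev_scale (F : BiForm) (x y : Fin 3 → ℂ) (hx : x 0 ≠ 0) (hy : y 0 ≠ 0) :
    ev F x y = (x 0) ^ 2 * (y 0) ^ 2 * ev F ![1, x 1 / x 0, x 2 / x 0] ![1, y 1 / y 0, y 2 / y 0] := by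
  rw [← ev_smul]
  congr 1
  · ext i; fin_cases i
    · simp
    · simp; field_simp
    · simp; field_simp
  · ext i; fin_cases i
    · simp
    · simp; field_simp
    · simp; field_simp

theorem ev_continuous (F : BiForm) {x y : ℂ → Fin 3 → ℂ} (hx : Continuous x) (hy : Continuous y) :
    Continuous fun t => ev F (x t) (y t) := by
  unfold ev
  refine continuous_finsetSum _ fun i _ => continuous_finsetSum _ fun j _ =>
    continuous_finsetSum _ fun k _ => continuous_finsetSum _ fun l _ => ?_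
  have h1 : ∀ i, Continuous fun t => x t i := fun i => (continuous_apply i).comp hx
  have h2 : ∀ i, Continuous fun t => y t i := fun i => (continuous_apply i).comp hy
  exact (continuous_const.mul ((h1 i).mul (h1 j))).mul ((h2 k).mul (h2 l))

theorem eval_differentiable (q : ℂ → Fin 4 → ℂ) (hq : ∀ i, DifferentiableAt ℂ (fun t => q t i) 0)
    (p : MvPolynomial (Fin 4) ℂ) : DifferentiableAt ℂ (fun t => MvPolynomial.eval (q t) p) 0 := by
  induction p using MvPolynomial.induction_on with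
  | C a => simp only [MvPolynomial.eval_C]; exact differentiableAt_const _
  | add p r hp hr => simp only [map_add]; exact hp.add hr
  | mul_X p i hp => simp only [map_mul, MvPolynomial.eval_X]; exact hp.mul (hq i)

theorem deriv_sq_zero {f k : ℂ → ℂ} (hk : DifferentiableAt ℂ k 0) (hk0 : k 0 = 0)
    (hf : f =ᶠ[𝓝 0] fun t => (k t) ^ 2) : deriv f 0 = 0 := by
  rw [hf.deriv_eq]
  have h := hk.hasDerivAt.pow 2
  have h2 := h.deriv
  rw [hk0] at h2
  simp at h2
  exact h2

/-- a smooth form is not a square -/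
theorem not_isSquare_aff {F : BiForm} (hF : Smooth F) : ¬ IsSquare (aff F) := by
  rintro ⟨h, hh⟩
  have hval : ∀ x y : Fin 3 → ℂ, x 0 ≠ 0 → y 0 ≠ 0 → ev F x y =
      (x 0 * y 0 * MvPolynomial.eval ![x 1 / x 0, x 2 / x 0, y 1 / y 0, y 2 / y 0] h) ^ 2 := by
    intro x y hx hy
    rw [ev_scale F x y hx hy]
    have h1 := eval_aff F ![x 1 / x 0, x 2 / x 0, y 1 / y 0, y 2 / y 0]
    rw [hh, map_mul] at h1
    have e : ev F ![1, x 1 / x 0, x 2 / x 0] ![1, y 1 / y 0, y 2 / y 0] =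
        ev F ![1, (![x 1 / x 0, x 2 / x 0, y 1 / y 0, y 2 / y 0] : Fin 4 → ℂ) 0,
          (![x 1 / x 0, x 2 / x 0, y 1 / y 0, y 2 / y 0] : Fin 4 → ℂ) 1]
          ![1, (![x 1 / x 0, x 2 / x 0, y 1 / y 0, y 2 / y 0] : Fin 4 → ℂ) 2,
          (![x 1 / x 0, x 2 / x 0, y 1 / y 0, y 2 / y 0] : Fin 4 → ℂ) 3] := rfl
    rw [e, ← h1]
    ring
  by_cases hz : ∃ p : Fin 4 → ℂ, MvPolynomial.eval p h = 0
  · obtain ⟨p, hp⟩ := hz
    have hx0 : (![1, p 0, p 1] : Fin 3 → ℂ) ≠ 0 := fun h0 => by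
      have := congrFun h0 0; simp at this
    have hy0 : (![1, p 2, p 3] : Fin 3 → ℂ) ≠ 0 := fun h0 => by
      have := congrFun h0 0; simp at this
    have hzero : ev F ![1, p 0, p 1] ![1, p 2, p 3] = 0 := by
      rw [← eval_aff, hh, map_mul, hp, mul_zero]
    obtain ⟨ξ, η, hd⟩ := hF _ _ hx0 hy0 hzero
    apply hd
    obtain ⟨x, hx⟩ : ∃ x : Fin 3 → ℂ, x = ![1, p 0, p 1] := ⟨_, rfl⟩
    obtain ⟨y, hy⟩ : ∃ y : Fin 3 → ℂ, y = ![1, p 2, p 3] := ⟨_, rfl⟩
    rw [← hx, ← hy]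
    have hx1 : x 0 = 1 := by rw [hx]; rfl
    have hy1 : y 0 = 1 := by rw [hy]; rfl
    have dx : ∀ i, DifferentiableAt ℂ (fun t : ℂ => (x + t • ξ) i) 0 := by
      intro i; simp only [Pi.add_apply, Pi.smul_apply, smul_eq_mul]; fun_prop
    have dy : ∀ i, DifferentiableAt ℂ (fun t : ℂ => (y + t • η) i) 0 := by
      intro i; simp only [Pi.add_apply, Pi.smul_apply, smul_eq_mul]; fun_prop
    have hx2 : (x + (0 : ℂ) • ξ) 0 ≠ 0 := by simp [hx1]
    have hy2 : (y + (0 : ℂ) • η) 0 ≠ 0 := by simp [hy1]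
    have dq : ∀ i, DifferentiableAt ℂ (fun t : ℂ => (![(x + t • ξ) 1 / (x + t • ξ) 0,
        (x + t • ξ) 2 / (x + t • ξ) 0, (y + t • η) 1 / (y + t • η) 0,
        (y + t • η) 2 / (y + t • η) 0] : Fin 4 → ℂ) i) 0 := by
      intro i
      fin_cases i
      · exact (dx 1).div (dx 0) hx2
      · exact (dx 2).div (dx 0) hx2
      · exact (dy 1).div (dy 0) hy2
      · exact (dy 2).div (dy 0) hy2
    refine deriv_sq_zero (k := fun t : ℂ => (x + t • ξ) 0 * (y + t • η) 0 *
      MvPolynomial.eval ![(x + t • ξ) 1 / (x + t • ξ) 0, (x + t • ξ) 2 / (x + t • ξ) 0,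
        (y + t • η) 1 / (y + t • η) 0, (y + t • η) 2 / (y + t • η) 0] h) ?_ ?_ ?_
    · exact ((dx 0).mul (dy 0)).mul (eval_differentiable _ dq h)
    · have e : (![(x + (0 : ℂ) • ξ) 1 / (x + (0 : ℂ) • ξ) 0, (x + (0 : ℂ) • ξ) 2 / (x + (0 : ℂ) • ξ) 0,
        (y + (0 : ℂ) • η) 1 / (y + (0 : ℂ) • η) 0, (y + (0 : ℂ) • η) 2 / (y + (0 : ℂ) • η) 0] :
        Fin 4 → ℂ) = p := by
        rw [zero_smul, zero_smul, add_zero, add_zero, hx, hy]
        ext i; fin_cases i <;> simp
      show (x + (0 : ℂ) • ξ) 0 * (y + (0 : ℂ) • η) 0 * MvPolynomial.eval _ h = 0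
      rw [e, hp, mul_zero]
    · have c1 : ∀ᶠ t : ℂ in 𝓝 0, (x + t • ξ) 0 ≠ 0 := (dx 0).continuousAt.eventually_ne hx2
      have c2 : ∀ᶠ t : ℂ in 𝓝 0, (y + t • η) 0 ≠ 0 := (dy 0).continuousAt.eventually_ne hy2
      filter_upwards [c1, c2] with t h1 h2
      exact hval _ _ h1 h2
  · -- `h` is a constant
    push Not at hz
    have hunit : IsUnit h := by
      by_contra hcon
      have hne : Ideal.span {h} ≠ ⊤ := by
        rw [Ne, Ideal.span_singleton_eq_top]; exact hcon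
      obtain ⟨I, hI, hle⟩ := Ideal.exists_le_maximal _ hne
      obtain ⟨p, hp⟩ := (MvPolynomial.isMaximal_iff_eq_vanishingIdeal_singleton).mp hI
      have hmem : h ∈ I := hle (Ideal.mem_span_singleton_self h)
      rw [hp, MvPolynomial.mem_vanishingIdeal_singleton_iff] at hmem
      exact hz p hmem
    obtain ⟨c, hc⟩ : ∃ c : ℂ, h = MvPolynomial.C c := by
      have h1 := (MvPolynomial.isUnit_iff_totalDegree_of_isReduced.mp hunit).2
      exact ⟨_, MvPolynomial.totalDegree_eq_zero_iff_eq_C.mp h1⟩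
    have hall : ∀ x y : Fin 3 → ℂ, y 0 ≠ 0 → ev F x y = (x 0 * y 0 * c) ^ 2 := by
      intro x y hy
      by_cases hx : x 0 = 0
      · have hcl : (fun s : ℂ => ev F (x + s • ![1, 0, 0]) y) = fun s : ℂ => (s * y 0 * c) ^ 2 := by
          apply Continuous.ext_on (s := {0}ᶜ) (dense_compl_singleton 0)
          · refine ev_continuous F ?_ continuous_const
            refine continuous_const.add ?_
            exact continuous_id.smul continuous_const
          · exact ((continuous_id.mul continuous_const).mul continuous_const).pow 2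
          · intro s hs
            have hs' : s ≠ 0 := hs
            have h1 : (x + s • (![1, 0, 0] : Fin 3 → ℂ)) 0 = s := by simp [hx]
            show ev F (x + s • ![1, 0, 0]) y = (s * y 0 * c) ^ 2
            rw [hval _ _ (by rw [h1]; exact hs') hy, hc, MvPolynomial.eval_C, h1]
        have h0 := congrFun hcl 0
        simp only [zero_smul, add_zero] at h0
        rw [h0, hx]
      · rw [hval x y hx hy, hc, MvPolynomial.eval_C]
    have hx0 : (![0, 1, 0] : Fin 3 → ℂ) ≠ 0 := fun h0 => by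
      have := congrFun h0 1; simp at this
    have hy0 : (![1, 0, 0] : Fin 3 → ℂ) ≠ 0 := fun h0 => by
      have := congrFun h0 0; simp at this
    obtain ⟨ξ, η, hd⟩ := hF ![0, 1, 0] ![1, 0, 0] hx0 hy0 (by
      rw [hall _ _ (by simp)]; simp)
    apply hd
    have dy : ∀ i, DifferentiableAt ℂ (fun t : ℂ => ((![1, 0, 0] : Fin 3 → ℂ) + t • η) i) 0 := by
      intro i; simp only [Pi.add_apply, Pi.smul_apply, smul_eq_mul]; fun_prop
    refine deriv_sq_zero (k := fun t : ℂ => ((![0, 1, 0] : Fin 3 → ℂ) + t • ξ) 0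
      * ((![1, 0, 0] : Fin 3 → ℂ) + t • η) 0 * c) ?_ ?_ ?_
    · simp only [Pi.add_apply, Pi.smul_apply, smul_eq_mul]; fun_prop
    · simp
    · have c2 : ∀ᶠ t : ℂ in 𝓝 0, ((![1, 0, 0] : Fin 3 → ℂ) + t • η) 0 ≠ 0 :=
        (dy 0).continuousAt.eventually_ne (by simp)
      filter_upwards [c2] with t h2
      exact hall _ _ h2

end Pool.Agent.Helper62.VF
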