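import Pool.Agent.Helper62.VF.Model
import Pool.Agent.Helper62.VF.NonSq

set_option autoImplicit false

namespace Pool.Agent.Helper62.VF

open MvPolynomial

section mv

variable {n : ℕ} {R S : Type} [CommRing R] [Algebra ℂ R] [CommRing S] [Algebra ℂ S]

/-- a complex matrix acts on vectors over an algebra -/
def mv (M : Matrix (Fin n) (Fin n) ℂ) (v : Fin n → R) : Fin n → R :=
  fun i => ∑ j, algebraMap ℂ R (M i j) * v j

theorem mv_mul (M N : Matrix (Fin n) (Fin n) ℂ) (v : Fin n → R) : mv M (mv N v) = mv (M * N) v := by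
  ext i
  unfold mv
  simp only [Finset.mul_sum, Matrix.mul_apply, map_sum, map_mul, Finset.sum_mul]
  rw [Finset.sum_comm]
  refine Finset.sum_congr rfl fun j _ => Finset.sum_congr rfl fun k _ => ?_
  ring

theorem mv_one (v : Fin n → R) : mv (1 : Matrix (Fin n) (Fin n) ℂ) v = v := by
  ext i
  unfold mv
  rw [Finset.sum_eq_single i]
  · simp
  · intro j _ hj
    rw [Matrix.one_apply_ne (Ne.symm hj), map_zero, zero_mul]
  · intro h; exact absurd (Finset.mem_univ i) h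

theorem mv_inv (M : Matrix (Fin n) (Fin n) ℂ) (hM : IsUnit M.det) (v : Fin n → R) :
    mv M (mv M⁻¹ v) = v := by
  rw [mv_mul, Matrix.mul_nonsing_inv _ hM, mv_one]

theorem mv_inv' (M : Matrix (Fin n) (Fin n) ℂ) (hM : IsUnit M.det) (v : Fin n → R) :
    mv M⁻¹ (mv M v) = v := by
  rw [mv_mul, Matrix.nonsing_inv_mul _ hM, mv_one]

theorem mv_map (φ : R →ₐ[ℂ] S) (M : Matrix (Fin n) (Fin n) ℂ) (v : Fin n → R) (i : Fin n) :
    φ (mv M v i) = mv M (fun j => φ (v j)) i := by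
  unfold mv
  simp only [map_sum, map_mul, AlgHom.commutes]

theorem mv_smul (M : Matrix (Fin n) (Fin n) ℂ) (c : R) (v : Fin n → R) :
    mv M (fun j => c * v j) = fun i => c * mv M v i := by
  ext i
  unfold mv
  rw [Finset.mul_sum]
  exact Finset.sum_congr rfl fun j _ => by ring

end mv

theorem vec_zero (A : Matrix (Fin 3) (Fin 3) ℂ) (hA : IsUnit A.det) (b : Fin 3 → ℂ)
    (h : ∀ p q : ℂ, ∑ i, b i * mv A⁻¹ ![1, p, q] i = 0) : b = 0 := by
  have hlin : ∀ x : Fin 3 → ℂ, ∑ i, b i * mv A⁻¹ x i = 0 := by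
    intro x
    have h0 := h 0 0
    have h1 := h 1 0
    have h2 := h 0 1
    have e : ∑ i, b i * mv A⁻¹ x i = x 0 * ∑ i, b i * mv A⁻¹ ![1, 0, 0] i
        + x 1 * (∑ i, b i * mv A⁻¹ ![1, 1, 0] i - ∑ i, b i * mv A⁻¹ ![1, 0, 0] i)
        + x 2 * (∑ i, b i * mv A⁻¹ ![1, 0, 1] i - ∑ i, b i * mv A⁻¹ ![1, 0, 0] i) := by
      unfold mv
      simp only [Fin.sum_univ_three, Algebra.algebraMap_self, RingHom.id_apply]
      simp
      ring
    rw [e, h0, h1, h2]
    ring
  ext k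
  have h1 := hlin (mv A (Pi.single k 1))
  rw [mv_inv' A hA] at h1
  rw [Finset.sum_eq_single k] at h1
  · simpa using h1
  · intro j _ hj
    rw [Pi.single_eq_of_ne hj, mul_zero]
  · intro hk; exact absurd (Finset.mem_univ k) hk

/-- the bilinear form at a vector of length 6 -/
def bil {R : Type} [CommRing R] [Algebra ℂ R] (g : Matrix (Fin 2) (Fin 2) ℂ) (p q r s : R) : R :=
  algebraMap ℂ R (g 0 0) * p * r + algebraMap ℂ R (g 0 1) * p * s + algebraMap ℂ R (g 1 0) * q * r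
    + algebraMap ℂ R (g 1 1) * q * s

theorem cubic_eval {E : Type} [Field E] [Algebra ℂ E] {F : BiForm} {G : MvPolynomial (Fin 6) ℂ}
    {A B : Matrix (Fin 3) (Fin 3) ℂ} {g : Matrix (Fin 2) (Fin 2) ℂ}
    (h : X 1 * G = (X 1 * X 0 + (C (g 0 0) * X 2 * X 4 + C (g 0 1) * X 2 * X 5 + C (g 1 0) * X 3 * X 4
        + C (g 1 1) * X 3 * X 5)) ^ 2
      - ev F (fun i => C (A i 0) * X 1 + C (A i 1) * X 2 + C (A i 2) * X 3)
          (fun i => C (B i 0) * X 1 + C (B i 1) * X 4 + C (B i 2) * X 5)) (v : Fin 6 → E) :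
    v 1 * MvPolynomial.aeval v G = (v 1 * v 0 + bil g (v 2) (v 3) (v 4) (v 5)) ^ 2
      - ev F (mv A ![v 1, v 2, v 3]) (mv B ![v 1, v 4, v 5]) := by
  have h1 := congrArg (MvPolynomial.aeval v) h
  rw [map_mul, map_sub, map_pow, ev_map] at h1
  simp only [map_add, map_mul, MvPolynomial.aeval_X, MvPolynomial.algHom_C] at h1
  rw [h1]
  unfold bil
  congr 2
  · ext i; unfold mv; simp [Fin.sum_univ_three]
  · ext i; unfold mv; simp [Fin.sum_univ_three]

theorem subst_eval {E : Type} [Field E] [Algebra ℂ E] (G : MvPolynomial (Fin 6) ℂ)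
    (M : Matrix (Fin 6) (Fin 6) ℂ) (v : Fin 6 → E) :
    MvPolynomial.aeval v (bind₁ (fun i => ∑ j, C (M i j) * X j) G) = MvPolynomial.aeval (mv M v) G := by
  rw [MvPolynomial.aeval_bind₁]
  congr 2
  ext i
  unfold mv
  simp only [map_sum, map_mul, MvPolynomial.algHom_C, MvPolynomial.aeval_X]

end Pool.Agent.Helper62.VF
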