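import Pool.Agent.Helper62.VF.Field

set_option autoImplicit false

namespace Pool.Agent.Helper62.VF

open MvPolynomial

theorem not_sq_frac {f : MvPolynomial (Fin 4) ℂ} (hns : ¬ IsSquare f)
    (b : FractionRing (MvPolynomial (Fin 4) ℂ)) :
    b ^ 2 ≠ algebraMap (MvPolynomial (Fin 4) ℂ) (FractionRing (MvPolynomial (Fin 4) ℂ)) f := by
  intro h
  have hint : IsIntegral (MvPolynomial (Fin 4) ℂ) b := by
    apply IsIntegral.of_pow (n := 2) (by norm_num)
    rw [h]
    exact isIntegral_algebraMap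
  obtain ⟨c, hc⟩ := IsIntegrallyClosed.algebraMap_eq_of_integral hint
  apply hns
  refine ⟨c, ?_⟩
  apply IsFractionRing.injective (MvPolynomial (Fin 4) ℂ) (FractionRing (MvPolynomial (Fin 4) ℂ))
  rw [← h, ← hc, map_mul, sq]

/-- a field with a generic point of the double cover -/
theorem exists_model (F : BiForm) (hns : ¬ IsSquare (aff F)) :
    ∃ (E : Type) (_ : Field E) (_ : Algebra ℂ E) (a : Fin 4 → E) (w : E),
      AlgebraicIndependent ℂ a ∧ w ^ 2 = ev F ![1, a 0, a 1] ![1, a 2, a 3] ∧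
      IntermediateField.adjoin ℂ (Set.range a ∪ {w}) = ⊤ ∧
      w ∉ IntermediateField.adjoin ℂ (Set.range a) := by
  obtain ⟨f0, hf0⟩ : ∃ f0, f0 = algebraMap (MvPolynomial (Fin 4) ℂ)
    (FractionRing (MvPolynomial (Fin 4) ℂ)) (aff F) := ⟨_, rfl⟩
  have hirr : Irreducible (Polynomial.X ^ 2 - Polynomial.C f0) := by
    apply X_pow_sub_C_irreducible_of_prime Nat.prime_two
    intro b
    rw [hf0]
    exact not_sq_frac hns b
  have : Fact (Irreducible (Polynomial.X ^ 2 - Polynomial.C f0)) := ⟨hirr⟩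
  obtain ⟨a, ha⟩ : ∃ a : Fin 4 → AdjoinRoot (Polynomial.X ^ 2 - Polynomial.C f0),
    a = fun i => algebraMap (FractionRing (MvPolynomial (Fin 4) ℂ)) _
      (algebraMap (MvPolynomial (Fin 4) ℂ) (FractionRing (MvPolynomial (Fin 4) ℂ)) (X i)) :=
    ⟨_, rfl⟩
  -- evaluation at `a`
  have hev : ∀ p : MvPolynomial (Fin 4) ℂ, MvPolynomial.aeval a p =
      algebraMap (FractionRing (MvPolynomial (Fin 4) ℂ)) (AdjoinRoot (Polynomial.X ^ 2 - Polynomial.C f0))
      (algebraMap (MvPolynomial (Fin 4) ℂ) (FractionRing (MvPolynomial (Fin 4) ℂ)) p) := by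
    intro p
    have h1 : (MvPolynomial.aeval a : MvPolynomial (Fin 4) ℂ →ₐ[ℂ] _) =
      (IsScalarTower.toAlgHom ℂ (FractionRing (MvPolynomial (Fin 4) ℂ))
        (AdjoinRoot (Polynomial.X ^ 2 - Polynomial.C f0))).comp
      (IsScalarTower.toAlgHom ℂ (MvPolynomial (Fin 4) ℂ) (FractionRing (MvPolynomial (Fin 4) ℂ))) := by
      apply MvPolynomial.algHom_ext
      intro i
      rw [aeval_X, ha]
      rfl
    rw [h1]
    rfl
  have hw2 : (AdjoinRoot.root (Polynomial.X ^ 2 - Polynomial.C f0)) ^ 2 =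
      algebraMap (FractionRing (MvPolynomial (Fin 4) ℂ)) _ f0 := by
    have h1 := AdjoinRoot.eval₂_root (Polynomial.X ^ 2 - Polynomial.C f0)
    rw [Polynomial.eval₂_sub, Polynomial.eval₂_X_pow, Polynomial.eval₂_C, sub_eq_zero] at h1
    exact h1
  have hfr : ∀ z : FractionRing (MvPolynomial (Fin 4) ℂ), algebraMap (FractionRing
      (MvPolynomial (Fin 4) ℂ)) (AdjoinRoot (Polynomial.X ^ 2 - Polynomial.C f0)) z
      ∈ IntermediateField.adjoin ℂ (Set.range a) := by
    intro z
    obtain ⟨p, q, hq, rfl⟩ := IsFractionRing.div_surjective (A := MvPolynomial (Fin 4) ℂ) z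
    rw [map_div₀, ← hev, ← hev]
    apply IntermediateField.div_mem
    · exact IntermediateField.algebra_adjoin_le_adjoin _ _
        (Algebra.adjoin_range_eq_range_aeval ℂ a ▸ ⟨p, rfl⟩)
    · exact IntermediateField.algebra_adjoin_le_adjoin _ _
        (Algebra.adjoin_range_eq_range_aeval ℂ a ▸ ⟨q, rfl⟩)
  refine ⟨AdjoinRoot (Polynomial.X ^ 2 - Polynomial.C f0), inferInstance, inferInstance, a,
    AdjoinRoot.root _, ?_, ?_, ?_, ?_⟩
  · have hinj : Function.Injective (MvPolynomial.aeval a : MvPolynomial (Fin 4) ℂ →ₐ[ℂ] _) := by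
      intro p q hpq
      rw [hev, hev] at hpq
      exact IsFractionRing.injective (MvPolynomial (Fin 4) ℂ) (FractionRing (MvPolynomial (Fin 4) ℂ))
        ((algebraMap (FractionRing (MvPolynomial (Fin 4) ℂ))
          (AdjoinRoot (Polynomial.X ^ 2 - Polynomial.C f0))).injective hpq)
    exact hinj
  · rw [hw2, ← aff_aeval, hev, hf0]
  · rw [eq_top_iff]
    rintro z -
    induction z using AdjoinRoot.induction_on with
    | ih p =>
      induction p using Polynomial.induction_on' with
      | add p q hp hq => rw [map_add]; exact add_mem hp hq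
      | monomial n c =>
        rw [← Polynomial.C_mul_X_pow_eq_monomial, map_mul, map_pow, AdjoinRoot.mk_C, AdjoinRoot.mk_X]
        apply mul_mem
        · have h1 := hfr c
          have h2 : IntermediateField.adjoin ℂ (Set.range a) ≤
            IntermediateField.adjoin ℂ (Set.range a ∪ {AdjoinRoot.root
              (Polynomial.X ^ 2 - Polynomial.C f0)}) :=
            IntermediateField.adjoin.mono _ _ _ Set.subset_union_left
          exact h2 h1
        · apply pow_mem
          exact IntermediateField.subset_adjoin _ _ (Or.inr rfl)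
  · intro hmem
    have hle : IntermediateField.adjoin ℂ (Set.range a) ≤
        (IsScalarTower.toAlgHom ℂ (FractionRing (MvPolynomial (Fin 4) ℂ))
          (AdjoinRoot (Polynomial.X ^ 2 - Polynomial.C f0))).fieldRange := by
      rw [IntermediateField.adjoin_le_iff]
      rintro x ⟨i, rfl⟩
      exact ⟨algebraMap _ _ (X i), by rw [ha]; rfl⟩
    obtain ⟨b, hb⟩ := hle hmem
    have hb' : algebraMap (FractionRing (MvPolynomial (Fin 4) ℂ))
      (AdjoinRoot (Polynomial.X ^ 2 - Polynomial.C f0)) b = AdjoinRoot.root _ := hb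
    apply not_sq_frac hns b
    apply (algebraMap (FractionRing (MvPolynomial (Fin 4) ℂ))
      (AdjoinRoot (Polynomial.X ^ 2 - Polynomial.C f0))).injective
    rw [map_pow, hb', hw2, hf0]

end Pool.Agent.Helper62.VF
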