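import Pool.Agent.Helper62.VF.Final

set_option autoImplicit false

namespace Pool.Agent.Helper62.VF

open MvPolynomial

theorem ev_mem {E : Type} [Field E] [Algebra ℂ E] (S : Subalgebra ℂ E) (F : BiForm) (x y : Fin 3 → E)
    (hx : ∀ i, x i ∈ S) (hy : ∀ i, y i ∈ S) : ev F x y ∈ S := by
  unfold ev
  refine sum_mem fun i _ => sum_mem fun j _ => sum_mem fun k _ => sum_mem fun l _ => ?_
  exact mul_mem (mul_mem (S.algebraMap_mem _) (mul_mem (hx i) (hx j))) (mul_mem (hy k) (hy l))

/-- a point of the second double cover in the function field of the first one -/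
theorem second_point {E : Type} [Field E] [Algebra ℂ E] (a : Fin 4 → E) (w : E)
    (ha : AlgebraicIndependent ℂ a) {F F' : BiForm}
    (hw : w ^ 2 = ev F ![1, a 0, a 1] ![1, a 2, a 3])
    (htop : IntermediateField.adjoin ℂ (Set.range a ∪ {w}) = ⊤)
    (hwn : w ∉ IntermediateField.adjoin ℂ (Set.range a))
    {G G' : MvPolynomial (Fin 6) ℂ} (h : HasCubic F G) (h' : HasCubic F' G') (hG : ProjEquiv G G') :
    ∃ (a' : Fin 4 → E) (w' : E), w' ^ 2 = ev F' ![1, a' 0, a' 1] ![1, a' 2, a' 3] ∧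
      IntermediateField.adjoin ℂ (Set.range a' ∪ {w'}) = ⊤ := by
  obtain ⟨A, B, g, hA, hB, hid⟩ := h
  obtain ⟨A', B', g', hA', hB', hid'⟩ := h'
  obtain ⟨M, hM, rfl⟩ := hG
  obtain ⟨x, hx⟩ : ∃ x : Fin 3 → E, x = ![1, a 0, a 1] := ⟨_, rfl⟩
  obtain ⟨y, hy⟩ : ∃ y : Fin 3 → E, y = ![1, a 2, a 3] := ⟨_, rfl⟩
  obtain ⟨v, hv⟩ : ∃ v, v = vec g w (mv A⁻¹ x) (mv B⁻¹ y) := ⟨_, rfl⟩
  have hind : ∀ c : Fin 6 → ℂ, ∑ i, algebraMap ℂ E (c i) * v i = 0 → c = 0 := by
    intro c hc
    rw [hv, hx, hy] at hc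
    exact vec_indep a ha w hwn hA hB g c hc
  have hne : ∀ k : Fin 6, v k ≠ 0 := by
    intro k hk
    have h1 := hind (Pi.single k 1) (by
      rw [Finset.sum_eq_single k]
      · rw [Pi.single_eq_same, map_one, one_mul, hk]
      · intro j _ hj
        rw [Pi.single_eq_of_ne hj, map_zero, zero_mul]
      · intro hk'; exact absurd (Finset.mem_univ k) hk')
    have h2 := congrFun h1 k
    rw [Pi.single_eq_same] at h2
    exact one_ne_zero h2
  have hv1 : v 1 = mv A⁻¹ x 0 * mv B⁻¹ y 0 := by rw [hv]; rfl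
  have hξ0 : mv A⁻¹ x 0 ≠ 0 := fun h0 => hne 1 (by rw [hv1, h0, zero_mul])
  have hη0 : mv B⁻¹ y 0 ≠ 0 := fun h0 => hne 1 (by rw [hv1, h0, mul_zero])
  have hGv : MvPolynomial.aeval v G = 0 := by
    rw [hv]
    exact cubic_zero hA hB hid x y w (by rw [hx, hy]; exact hw) hξ0 hη0
  obtain ⟨v', hv'⟩ : ∃ v', v' = mv M⁻¹ v := ⟨_, rfl⟩
  have hMv : mv M v' = v := by rw [hv', mv_inv M hM]
  have hGv' : MvPolynomial.aeval v' (bind₁ (fun i => ∑ j, C (M i j) * X j) G) = 0 := by
    rw [subst_eval, hMv, hGv]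
  have hce := cubic_eval hid' v'
  rw [hGv', mul_zero] at hce
  obtain ⟨X', hX'⟩ : ∃ X', X' = mv A' ![v' 1, v' 2, v' 3] := ⟨_, rfl⟩
  obtain ⟨Y', hY'⟩ : ∃ Y', Y' = mv B' ![v' 1, v' 4, v' 5] := ⟨_, rfl⟩
  obtain ⟨W', hW'⟩ : ∃ W', W' = v' 1 * v' 0 + bil g' (v' 2) (v' 3) (v' 4) (v' 5) := ⟨_, rfl⟩
  rw [← hX', ← hY', ← hW'] at hce
  have hW2 : W' ^ 2 = ev F' X' Y' := by linear_combination -hce
  -- nonvanishing
  have hz : v' 1 ≠ 0 := by
    have h1 := form_ne hM hv' hind (Pi.single 1 1) (by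
      intro h0
      have := congrFun h0 1
      rw [Pi.single_eq_same] at this
      exact one_ne_zero this)
    rw [Finset.sum_eq_single 1] at h1
    · rw [Pi.single_eq_same, map_one, one_mul] at h1
      exact h1
    · intro j _ hj
      rw [Pi.single_eq_of_ne hj, map_zero, zero_mul]
    · intro hk'; exact absurd (Finset.mem_univ _) hk'
  have hX0 : X' 0 ≠ 0 := by
    have h1 := form_ne hM hv' hind ![0, A' 0 0, A' 0 1, A' 0 2, 0, 0] (by
      intro h0
      refine row_ne hA' 0 fun j => ?_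
      fin_cases j
      · exact congrFun h0 1
      · exact congrFun h0 2
      · exact congrFun h0 3)
    rw [Fin.sum_univ_six] at h1
    simp only [Matrix.cons_val, map_zero, zero_mul, zero_add, add_zero] at h1
    rw [hX']
    unfold mv
    rw [Fin.sum_univ_three]
    simp only [Matrix.cons_val]
    exact h1
  have hY0 : Y' 0 ≠ 0 := by
    have h1 := form_ne hM hv' hind ![0, B' 0 0, 0, 0, B' 0 1, B' 0 2] (by
      intro h0
      refine row_ne hB' 0 fun j => ?_
      fin_cases j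
      · exact congrFun h0 1
      · exact congrFun h0 4
      · exact congrFun h0 5)
    rw [Fin.sum_univ_six] at h1
    simp only [Matrix.cons_val, map_zero, zero_mul, zero_add, add_zero] at h1
    rw [hY']
    unfold mv
    rw [Fin.sum_univ_three]
    simp only [Matrix.cons_val]
    exact h1
  refine ⟨![X' 1 / X' 0, X' 2 / X' 0, Y' 1 / Y' 0, Y' 2 / Y' 0], W' / (X' 0 * Y' 0), ?_, ?_⟩
  · -- the equation
    have e1 : X' = fun i => X' 0 * (![1, X' 1 / X' 0, X' 2 / X' 0] : Fin 3 → E) i := by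
      ext i
      fin_cases i
      · simp
      · simp; field_simp
      · simp; field_simp
    have e2 : Y' = fun i => Y' 0 * (![1, Y' 1 / Y' 0, Y' 2 / Y' 0] : Fin 3 → E) i := by
      ext i
      fin_cases i
      · simp
      · simp; field_simp
      · simp; field_simp
    have e3 : ev F' X' Y' = X' 0 ^ 2 * Y' 0 ^ 2 *
        ev F' ![1, X' 1 / X' 0, X' 2 / X' 0] ![1, Y' 1 / Y' 0, Y' 2 / Y' 0] := by
      conv_lhs => rw [e1, e2]
      rw [ev_smul]
    have e4 : (W' / (X' 0 * Y' 0)) ^ 2 =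
        ev F' ![1, X' 1 / X' 0, X' 2 / X' 0] ![1, Y' 1 / Y' 0, Y' 2 / Y' 0] := by
      rw [div_pow, hW2, e3]
      field_simp
    exact e4
  · -- generation
    obtain ⟨K, hK⟩ : ∃ K, K = IntermediateField.adjoin ℂ
      (Set.range (![X' 1 / X' 0, X' 2 / X' 0, Y' 1 / Y' 0, Y' 2 / Y' 0] : Fin 4 → E) ∪
        {W' / (X' 0 * Y' 0)}) := ⟨_, rfl⟩
    rw [← hK]
    have hsub : ∀ i, (![X' 1 / X' 0, X' 2 / X' 0, Y' 1 / Y' 0, Y' 2 / Y' 0] : Fin 4 → E) i ∈ K :=
      fun i => by rw [hK]; exact IntermediateField.subset_adjoin _ _ (Or.inl ⟨i, rfl⟩)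
    have hWK : W' / (X' 0 * Y' 0) ∈ K := by
      rw [hK]; exact IntermediateField.subset_adjoin _ _ (Or.inr rfl)
    have hXK : ∀ i, X' i / X' 0 ∈ K := by
      intro i
      fin_cases i
      · show X' 0 / X' 0 ∈ K
        rw [div_self hX0]; exact one_mem K
      · exact hsub 0
      · exact hsub 1
    have hYK : ∀ i, Y' i / Y' 0 ∈ K := by
      intro i
      fin_cases i
      · show Y' 0 / Y' 0 ∈ K
        rw [div_self hY0]; exact one_mem K
      · exact hsub 2
      · exact hsub 3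
    rw [hX'] at hX0 hXK
    rw [hY'] at hY0 hYK
    obtain ⟨k1, k2⟩ := gen1 K hA' ![v' 1, v' 2, v' 3] hz hX0 hXK
    obtain ⟨k3, k4⟩ := gen1 K hB' ![v' 1, v' 4, v' 5] hz hY0 hYK
    rw [← hX'] at k1 hX0
    rw [← hY'] at k3 hY0
    have r2 : v' 2 / v' 1 ∈ K := k2 1
    have r3 : v' 3 / v' 1 ∈ K := k2 2
    have r4 : v' 4 / v' 1 ∈ K := k4 1
    have r5 : v' 5 / v' 1 ∈ K := k4 2
    have k1' : X' 0 / v' 1 ∈ K := k1
    have k3' : Y' 0 / v' 1 ∈ K := k3
    have r0 : v' 0 / v' 1 ∈ K := by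
      have e : v' 0 / v' 1 = W' / (X' 0 * Y' 0) * (X' 0 / v' 1) * (Y' 0 / v' 1)
          - bil g' (v' 2 / v' 1) (v' 3 / v' 1) (v' 4 / v' 1) (v' 5 / v' 1) := by
        rw [hW']
        unfold bil
        field_simp
        ring
      rw [e]
      exact sub_mem (mul_mem (mul_mem hWK k1') k3') (bil_mem K g' r2 r3 r4 r5)
    have r : ∀ i, v' i / v' 1 ∈ K := by
      intro i
      fin_cases i
      · exact r0
      · show v' 1 / v' 1 ∈ K
        rw [div_self hz]; exact one_mem K
      · exact r2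
      · exact r3
      · exact r4
      · exact r5
    have s : ∀ i, v i / v' 1 ∈ K := by
      intro i
      have h2 := mv_mem K M (fun j => (v' 1)⁻¹ * v' j) (fun j => by
        have := r j
        rw [div_eq_mul_inv, mul_comm] at this
        exact this) i
      rw [mv_smul, hMv] at h2
      rw [div_eq_mul_inv, mul_comm]
      exact h2
    have t : ∀ i, v i / v 1 ∈ K := by
      intro i
      have e : v i / v 1 = (v i / v' 1) / (v 1 / v' 1) := by
        have := hne 1
        field_simp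
      rw [e]
      exact div_mem (s i) (s 1)
    have hξK : ∀ i, mv A⁻¹ x i / mv A⁻¹ x 0 ∈ K := by
      intro i
      fin_cases i
      · show mv A⁻¹ x 0 / mv A⁻¹ x 0 ∈ K
        rw [div_self hξ0]; exact one_mem K
      · have h1 := t 2
        have e : v 2 / v 1 = mv A⁻¹ x 1 / mv A⁻¹ x 0 := by
          rw [hv]
          simp only [vec, Matrix.cons_val]
          field_simp
        rw [e] at h1
        exact h1
      · have h1 := t 3
        have e : v 3 / v 1 = mv A⁻¹ x 2 / mv A⁻¹ x 0 := by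
          rw [hv]
          simp only [vec, Matrix.cons_val]
          field_simp
        rw [e] at h1
        exact h1
    have hηK : ∀ i, mv B⁻¹ y i / mv B⁻¹ y 0 ∈ K := by
      intro i
      fin_cases i
      · show mv B⁻¹ y 0 / mv B⁻¹ y 0 ∈ K
        rw [div_self hη0]; exact one_mem K
      · have h1 := t 4
        have e : v 4 / v 1 = mv B⁻¹ y 1 / mv B⁻¹ y 0 := by
          rw [hv]
          simp only [vec, Matrix.cons_val]
          field_simp
        rw [e] at h1
        exact h1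
      · have h1 := t 5
        have e : v 5 / v 1 = mv B⁻¹ y 2 / mv B⁻¹ y 0 := by
          rw [hv]
          simp only [vec, Matrix.cons_val]
          field_simp
        rw [e] at h1
        exact h1
    obtain ⟨hxK, hξK2⟩ := gen2 K hA x (by rw [hx]; rfl) hξ0 hξK
    obtain ⟨hyK, hηK2⟩ := gen2 K hB y (by rw [hy]; rfl) hη0 hηK
    have hv1K : v 1 ∈ K := by rw [hv1]; exact mul_mem (hξK2 0) (hηK2 0)
    have hv0K : v 0 ∈ K := by
      have e : v 0 = v 0 / v 1 * v 1 := by
        have := hne 1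
        field_simp
      rw [e]
      exact mul_mem (t 0) hv1K
    have hwK : w ∈ K := by
      have e : w = v 0 + bil g (mv A⁻¹ x 1) (mv A⁻¹ x 2) (mv B⁻¹ y 1) (mv B⁻¹ y 2) := by
        rw [hv]
        simp only [vec, Matrix.cons_val]
        ring
      rw [e]
      exact add_mem hv0K (bil_mem K g (hξK2 1) (hξK2 2) (hηK2 1) (hηK2 2))
    rw [eq_top_iff, ← htop, IntermediateField.adjoin_le_iff]
    rintro z (⟨i, rfl⟩ | hzz)
    · fin_cases i
      · have := hxK 1; rw [hx] at this; exact this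
      · have := hxK 2; rw [hx] at this; exact this
      · have := hyK 1; rw [hy] at this; exact this
      · have := hyK 2; rw [hy] at this; exact this
    · rw [Set.mem_singleton_iff.mp hzz]
      exact hwK

theorem ev_adjoin {E : Type} [Field E] [Algebra ℂ E] (F : BiForm) (a : Fin 4 → E) :
    ev F ![1, a 0, a 1] ![1, a 2, a 3] ∈ Algebra.adjoin ℂ (Set.range a) := by
  apply ev_mem
  · intro i
    fin_cases i
    · exact one_mem _
    · exact Algebra.subset_adjoin ⟨0, rfl⟩
    · exact Algebra.subset_adjoin ⟨1, rfl⟩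
  · intro i
    fin_cases i
    · exact one_mem _
    · exact Algebra.subset_adjoin ⟨2, rfl⟩
    · exact Algebra.subset_adjoin ⟨3, rfl⟩

/-- two Verra fourfolds with projectively equivalent cubics are birational -/
theorem birational_of {F F' : BiForm} (hF : Smooth F) (hF' : Smooth F') {G G' : MvPolynomial (Fin 6) ℂ}
    (h : HasCubic F G) (h' : HasCubic F' G') (hG : ProjEquiv G G') : Birational F F' := by
  obtain ⟨E, _, _, a, w, ha, hw, htop, hwn⟩ := exists_model F (not_isSquare_aff hF)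
  obtain ⟨a', w', hw', htop'⟩ := second_point a w ha hw htop hwn h h' hG
  have hbasis : IsTranscendenceBasis ℂ a :=
    basis_of_gen a w ha (by rw [hw]; exact ev_adjoin F a) htop
  have ha' : AlgebraicIndependent ℂ a' :=
    indep_of_gen a hbasis a' w' (by rw [hw']; exact ev_adjoin F' a') htop'
  obtain ⟨e1⟩ := realize F a w (not_isSquare_aff hF) ha hw htop
  obtain ⟨e2⟩ := realize F' a' w' (not_isSquare_aff hF') ha' hw' htop'
  exact ⟨e1.trans e2.symm⟩

end Pool.Agent.Helper62.VF
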